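import Pool.Agent.G4.Z.CDefs

/-!
# G4 F BLn: almost all lines do not meet `B`

`B` is closed and `Λ`-invariant and the lines of direction `e` have few hits with `B`.  Let `A` be the set of the `y` such that `y + z e ∈ B` for some `|z| ≤ 1`: closed and `Λ`-invariant.  For every `y` the
area of `{w : |w| ≤ R, y + w e ∈ A}` is at most `π` times the number of hits with `|z| ≤ R + 1`, `o (R²)`.  If `A` had positive measure, the measure of `A` in every ball of a suitable radius `r` would be at least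
`v > 0`, and integration over the `y` in the ball of radius `r` gives `π R² v ≤ C o (R²)`.
-/

set_option autoImplicit false

open Topology Filter Metric MeasureTheory

namespace Pool.Agent.G4

open Pool.Agent.AD (Vd)
open Pool.Agent.TG (Lat)

variable {k : ℕ}

private theorem hits_fin {B : Set (Vd (k + 1))} {e y : Vd (k + 1)} {R M : ℝ}
    (h : ∀ S : Finset ℂ, (∀ z ∈ S, ‖z‖ ≤ R ∧ y + z • e ∈ B) → (S.card : ℝ) ≤ M) :
    {z : ℂ | ‖z‖ ≤ R ∧ y + z • e ∈ B}.Finite := by
  by_contra hinf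
  obtain ⟨n, hn⟩ := exists_nat_gt M
  obtain ⟨S, hS, hc⟩ := Set.Infinite.exists_subset_card_eq (s := {z : ℂ | ‖z‖ ≤ R ∧ y + z • e ∈ B}) hinf n
  have h1 := h S fun z hz => hS hz
  rw [hc] at h1
  linarith

/-- the points at distance at most `1` of `B` in the direction `e` -/
private def AA (B : Set (Vd (k + 1))) (e : Vd (k + 1)) : Set (Vd (k + 1)) := {y | ∃ z : ℂ, ‖z‖ ≤ 1 ∧ y + z • e ∈ B}

private theorem AA_closed {B : Set (Vd (k + 1))} (hB : IsClosed B) (e : Vd (k + 1)) : IsClosed (AA B e) := by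
  have h2 : AA B e = Prod.snd '' ({p : closedBall (0 : ℂ) 1 × Vd (k + 1) | p.2 + (p.1 : ℂ) • e ∈ B}) := by
    ext y
    constructor
    · rintro ⟨z, hz, hy⟩
      exact ⟨(⟨z, by simpa using hz⟩, y), hy, rfl⟩
    · rintro ⟨⟨z, y'⟩, hy, rfl⟩
      exact ⟨z, mem_closedBall_zero_iff.1 z.2, hy⟩
  rw [h2]
  refine isClosedMap_snd_of_compactSpace _ (hB.preimage ?_)
  exact continuous_snd.add ((continuous_subtype_val.comp continuous_fst).smul continuous_const)

private theorem AA_null {Λ : AddSubgroup (Vd (k + 1))} (hL : Lat Λ) {B : Set (Vd (k + 1))} (hB : IsClosed B) (hinv : ∀ y ∈ B, ∀ l ∈ Λ, y + l ∈ B) {e : Vd (k + 1)}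
    (hF : Few B e) : volume (AA B e) = 0 := by
  by_contra hne
  obtain ⟨A, hA⟩ : ∃ A, A = AA B e := ⟨_, rfl⟩
  rw [← hA] at hne
  have hAc : IsClosed A := hA ▸ AA_closed hB e
  have hAinv : ∀ y ∈ A, ∀ l ∈ Λ, y + l ∈ A := by
    intro y hy l hl
    rw [hA] at hy ⊢
    obtain ⟨z, hz, h1⟩ := hy
    exact ⟨z, hz, by have := hinv _ h1 l hl; rwa [add_right_comm] at this⟩
  -- a ball in which `A` has positive measure
  obtain ⟨r₀, hr₀, hv⟩ : ∃ r₀ : ℝ, 0 < r₀ ∧ volume (A ∩ closedBall 0 r₀) ≠ 0 := by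
    by_contra hcon
    push Not at hcon
    refine hne (measure_mono_null (t := ⋃ n : ℕ, A ∩ closedBall 0 ((n : ℝ) + 1)) ?_ (measure_iUnion_null fun n => hcon _ (by positivity)))
    intro y hy
    obtain ⟨n, hn⟩ := exists_nat_ge ‖y‖
    exact Set.mem_iUnion.2 ⟨n, hy, by simpa using by linarith⟩
  obtain ⟨Rl, hRl, hcpt⟩ := hL.cpt
  obtain ⟨r, hr⟩ : ∃ r, r = r₀ + Rl := ⟨_, rfl⟩
  obtain ⟨v, hvd⟩ : ∃ v, v = volume (A ∩ closedBall (0 : Vd (k + 1)) r₀) := ⟨_, rfl⟩
  rw [← hvd] at hv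
  have hlow : ∀ c : Vd (k + 1), v ≤ volume (A ∩ closedBall c r) := by
    intro c
    obtain ⟨l, hl, hcl⟩ := hcpt c
    rw [hvd, ← measure_preimage_add_right volume (-l) (A ∩ closedBall 0 r₀)]
    refine measure_mono fun y hy => ?_
    obtain ⟨h1, h2⟩ := hy
    refine ⟨?_, ?_⟩
    · have := hAinv _ h1 l hl
      simpa using this
    · rw [mem_closedBall, dist_eq_norm] at h2 ⊢
      have h3 : y - c = (y + -l - 0) - (c - l) := by abel
      rw [h3, hr]
      exact (norm_sub_le _ _).trans (add_le_add h2 hcl)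
  have hvt : v < ⊤ := by
    rw [hvd]
    exact (measure_mono Set.inter_subset_right).trans_lt (isCompact_closedBall _ _).measure_lt_top
  have hvolC : ∀ (z : ℂ) (R : ℝ), 0 ≤ R → volume (closedBall z R) = ENNReal.ofReal (Real.pi * R ^ 2) := by
    intro z R hR
    rw [Complex.volume_closedBall, mul_comm Real.pi, ENNReal.ofReal_mul (by positivity), ENNReal.ofReal_pow hR]
    congr 1
    rw [← NNReal.coe_real_pi, ENNReal.ofReal_coe_nnreal]
  -- the upper bound
  obtain ⟨K, hK⟩ : ∃ K, K = volume (closedBall (0 : Vd (k + 1)) r) := ⟨_, rfl⟩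
  have hKt : K < ⊤ := by
    rw [hK]
    exact (isCompact_closedBall _ _).measure_lt_top
  have hup : ∀ (y : Vd (k + 1)) (R M : ℝ), 0 ≤ M → (∀ S : Finset ℂ, (∀ z ∈ S, ‖z‖ ≤ R + 1 ∧ y + z • e ∈ B) → (S.card : ℝ) ≤ M) →
      volume {w : ℂ | ‖w‖ ≤ R ∧ y + w • e ∈ A} ≤ ENNReal.ofReal (Real.pi * M) := by
    intro y R M hM hS
    have hfin := hits_fin hS
    have hsub : {w : ℂ | ‖w‖ ≤ R ∧ y + w • e ∈ A} ⊆ ⋃ z ∈ hfin.toFinset, closedBall z 1 := by
      rintro w ⟨hw, hwA⟩
      rw [hA] at hwA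
      obtain ⟨z, hz, hzB⟩ := hwA
      rw [add_assoc, ← add_smul] at hzB
      refine Set.mem_biUnion (x := w + z) ?_ ?_
      · rw [Finset.mem_coe, Set.Finite.mem_toFinset]
        exact ⟨(norm_add_le _ _).trans (add_le_add hw hz), hzB⟩
      · rw [mem_closedBall, dist_eq_norm, sub_add_cancel_left, norm_neg]
        exact hz
    refine (measure_mono hsub).trans ((measure_biUnion_finset_le _ _).trans ?_)
    have h1 : ∀ z : ℂ, volume (closedBall z 1) = ENNReal.ofReal Real.pi := by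
      intro z
      rw [hvolC z 1 zero_le_one, one_pow, mul_one]
    rw [Finset.sum_congr rfl fun z _ => h1 z, Finset.sum_const, nsmul_eq_mul]
    rw [ENNReal.ofReal_mul Real.pi_nonneg, mul_comm]
    refine mul_le_mul_right ?_ _
    have h2 := hS hfin.toFinset fun z hz => by
      rw [Set.Finite.mem_toFinset] at hz
      exact hz
    rw [← ENNReal.ofReal_natCast]
    exact ENNReal.ofReal_le_ofReal h2
  -- Fubini
  have hmain : ∀ R M : ℝ, 0 ≤ R → 0 ≤ M → (∀ (y : Vd (k + 1)) (S : Finset ℂ), (∀ z ∈ S, ‖z‖ ≤ R + 1 ∧ y + z • e ∈ B) → (S.card : ℝ) ≤ M) →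
      v.toReal * R ^ 2 ≤ K.toReal * M := by
    intro R M hR hM hS
    obtain ⟨f, hf⟩ : ∃ f : Vd (k + 1) → ℂ → ENNReal, f = fun y w => Set.indicator {p : Vd (k + 1) × ℂ | p.1 + p.2 • e ∈ A} 1 (y, w) := ⟨_, rfl⟩
    have hcl : IsClosed {p : Vd (k + 1) × ℂ | p.1 + p.2 • e ∈ A} :=
      hAc.preimage (continuous_fst.add (continuous_snd.smul continuous_const))
    have hfm : Measurable (Function.uncurry f) := by
      rw [hf]
      exact measurable_one.indicator hcl.measurableSet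
    have hswap := lintegral_lintegral_swap (μ := volume.restrict (closedBall (0 : Vd (k + 1)) r)) (ν := volume.restrict (closedBall (0 : ℂ) R)) (f := f) hfm.aemeasurable
    have hL1 : ∫⁻ y in closedBall (0 : Vd (k + 1)) r, ∫⁻ w in closedBall (0 : ℂ) R, f y w ≤ ENNReal.ofReal (Real.pi * M) * K := by
      rw [hK, ← setLIntegral_const]
      refine lintegral_mono fun y => ?_
      have h1 : ∀ w, f y w = Set.indicator {w : ℂ | y + w • e ∈ A} 1 w := fun w => by
        rw [hf]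
        rfl
      simp only [h1]
      have hcl2 : IsClosed {w : ℂ | y + w • e ∈ A} := hAc.preimage (continuous_const.add (continuous_id.smul continuous_const))
      rw [lintegral_indicator_one hcl2.measurableSet, Measure.restrict_apply hcl2.measurableSet]
      refine le_trans (measure_mono ?_) (hup y R M hM (hS y))
      rintro w ⟨hw, hw2⟩
      exact ⟨by simpa using hw2, hw⟩
    have hL2 : v * volume (closedBall (0 : ℂ) R) ≤ ∫⁻ w in closedBall (0 : ℂ) R, ∫⁻ y in closedBall (0 : Vd (k + 1)) r, f y w := by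
      rw [← setLIntegral_const]
      refine lintegral_mono fun w => ?_
      have h1 : ∀ y, f y w = Set.indicator {y : Vd (k + 1) | y + w • e ∈ A} 1 y := fun y => by
        rw [hf]
        rfl
      simp only [h1]
      have hcl2 : IsClosed {y : Vd (k + 1) | y + w • e ∈ A} := hAc.preimage (continuous_id.add continuous_const)
      rw [lintegral_indicator_one hcl2.measurableSet, Measure.restrict_apply hcl2.measurableSet]
      refine (hlow (w • e)).trans ?_
      rw [← measure_preimage_add_right volume (w • e) (A ∩ closedBall (w • e) r)]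
      refine measure_mono ?_
      rintro y ⟨hy, hy2⟩
      refine ⟨hy, ?_⟩
      rw [mem_closedBall, dist_eq_norm, add_sub_cancel_right] at hy2
      simpa using hy2
    have h3 := hL2.trans (hswap.symm.le.trans hL1)
    rw [hvolC 0 R hR] at h3
    have h4 := ENNReal.toReal_mono (ENNReal.mul_ne_top ENNReal.ofReal_ne_top hKt.ne) h3
    rw [ENNReal.toReal_mul, ENNReal.toReal_mul, ENNReal.toReal_ofReal (by positivity), ENNReal.toReal_ofReal (by positivity)] at h4
    have hpi := Real.pi_pos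
    have h5 : Real.pi * (v.toReal * R ^ 2) ≤ Real.pi * (K.toReal * M) := by linarith
    exact le_of_mul_le_mul_left h5 hpi
  -- the contradiction
  obtain ⟨t, ht⟩ : ∃ t, t = v.toReal := ⟨_, rfl⟩
  obtain ⟨κ, hκ⟩ : ∃ κ, κ = K.toReal := ⟨_, rfl⟩
  rw [← ht, ← hκ] at hmain
  have ht0 : 0 < t := by
    rw [ht]
    exact ENNReal.toReal_pos hv hvt.ne
  have hκ0 : 0 ≤ κ := by
    rw [hκ]
    exact ENNReal.toReal_nonneg
  obtain ⟨C, hC⟩ := hF (t / (8 * (κ + 1))) (by positivity)
  obtain ⟨R, hR⟩ : ∃ R : ℝ, 1 ≤ R ∧ 2 * (κ * |C|) < t * R := by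
    refine ⟨max 1 ((2 * (κ * |C|) + 1) / t), le_max_left _ _, ?_⟩
    have h1 : (2 * (κ * |C|) + 1) / t ≤ max 1 ((2 * (κ * |C|) + 1) / t) := le_max_right _ _
    rw [div_le_iff₀ ht0] at h1
    linarith
  obtain ⟨hR1, hR2⟩ := hR
  have h1 := hmain R (t / (8 * (κ + 1)) * (R + 1) ^ 2 + |C|) (by linarith) (by positivity) fun y S hS => (hC y (R + 1) (by linarith) S hS).trans (by linarith [le_abs_self C])
  have h2 : κ * (t / (8 * (κ + 1)) * (R + 1) ^ 2) ≤ t * R ^ 2 / 2 := by
    have h3 : (R + 1) ^ 2 ≤ 4 * R ^ 2 := by nlinarith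
    have h4 : κ / (κ + 1) ≤ 1 := by
      rw [div_le_one (by positivity)]
      linarith
    have h5 : κ * (t / (8 * (κ + 1)) * (R + 1) ^ 2) = (κ / (κ + 1)) * (t / 8 * (R + 1) ^ 2) := by
      field_simp
    rw [h5]
    have h6 : 0 ≤ t / 8 * (R + 1) ^ 2 := by positivity
    nlinarith [mul_le_mul_of_nonneg_right h4 h6, mul_le_mul_of_nonneg_left h3 (show 0 ≤ t / 8 by positivity)]
  have h3 : t * R ^ 2 ≤ t * R ^ 2 / 2 + κ * |C| := by
    have : κ * (t / (8 * (κ + 1)) * (R + 1) ^ 2 + |C|) = κ * (t / (8 * (κ + 1)) * (R + 1) ^ 2) + κ * |C| := by ring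
    linarith
  have h4 : t * R ≤ t * R ^ 2 := by nlinarith [mul_pos ht0 (by linarith : (0 : ℝ) < R)]
  linarith

/-- almost all lines of direction `e` do not meet `B` -/
theorem ae_lines {Λ : AddSubgroup (Vd (k + 1))} (hL : Lat Λ) {B : Set (Vd (k + 1))} (hB : IsClosed B) (hinv : ∀ y ∈ B, ∀ l ∈ Λ, y + l ∈ B) {e : Vd (k + 1)}
    (hF : Few B e) : ∀ᵐ y : Vd (k + 1), ∀ z : ℂ, y + z • e ∉ B := by
  have h0 := AA_null hL hB hinv hF
  obtain ⟨Q, hQc, hQd⟩ := TopologicalSpace.exists_countable_dense ℂ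
  have h1 : ∀ᵐ y : Vd (k + 1), ∀ q ∈ Q, y + q • e ∉ AA B e := by
    rw [ae_ball_iff hQc]
    intro q _
    have h2 : volume ((fun y => y + q • e) ⁻¹' AA B e) = 0 := by
      rw [measure_preimage_add_right]
      exact h0
    filter_upwards [compl_mem_ae_iff.2 h2] with y hy using hy
  filter_upwards [h1] with y hy z hz
  obtain ⟨q, hq, hqz⟩ := Metric.dense_iff.1 hQd z 1 one_pos
  rw [mem_ball, dist_comm, dist_eq_norm] at hq
  refine hy q hqz ⟨z - q, hq.le, ?_⟩
  rw [add_assoc, ← add_smul, add_sub_cancel]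
  exact hz

end Pool.Agent.G4
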