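import Pool.Agent.G3.F.ConP
import Pool.Agent.G3.PS.Main
import Pool.Agent.G3.P.Ahl
import Pool.Agent.TG.FMain
import Pool.Agent.G4.F.BLn

/-!
# G4 F ConD: the geometry of the cone, any dimension

As `G3/F/ConD` and `TGF.geo_of`, with the line condition on `B` from the few hits (`ae_lines`).
`con_fib`: an entire curve `F` in the cone over a point `y ∉ D` is a curve `Cv X Λ u univ F (fun _ => y)`; `ps_of_pdata` and `ahl` with `H = 0` and `r → ∞` give `pf p F = 0`, `PS.ge_fs` gives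
`fs (F z) (F' z) = 0`.
-/

set_option autoImplicit false

open Topology Filter Metric MvPolynomial

namespace Pool.Agent.G4

open Pool.Agent.H17 (PN VanishesAt HolomorphicInto puncturedDisc)
open Pool.Agent.H62.FC (Homog)
open Pool.Agent.H17LG.Variety (FunField IsLogGeneralType)
open Pool.Agent.H17EF (projVar coneE LE mem_coneE mk_mem_projVar)
open Pool.Agent.H36.BP (EN fs wd Sub Curve)
open Pool.Agent.H14.PP (IsCone CurveAt Tan)
open Pool.Agent.H62.EF (MN pr)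
open Pool.Agent.AD (Vd Chart Charts uV uV_eq sub_mem_iff IsHolomorphicTorusMap)
open Pool.Agent.TG (TMap Lat Geo Gd VForm Fb)
open Pool.Agent.TGF (Cn Over IsAnalyticSubset Submersion IsCoord NormalCrossing)
open Pool.Agent.G3 (Cv pf PS pP pdata_of ps_of_pdata ahl)
open Pool.Agent.G3F (HasSymmetricForms)

variable {N k : ℕ}

private theorem ConD_gd {D : Set (Cn (k + 1))} (hD : IsClosed D) {y : Cn (k + 1)} (hy : y ∉ D) : ∃ δ : ℝ, 0 < δ ∧ y ∈ Gd D δ := by
  obtain ⟨δ, hδ, hball⟩ := Metric.isOpen_iff.1 hD.isOpen_compl y hy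
  refine ⟨δ, hδ, fun b hb => ?_⟩
  by_contra hlt
  push Not at hlt
  have h1 : b ∈ ball y δ := by
    rw [mem_ball, dist_comm, dist_eq_norm]
    exact hlt
  exact hball h1 hb

private theorem ConD_zero {a C : ℝ} {m : ℕ} (hm : 1 ≤ m) (h : ∀ r : ℝ, 0 < r → a ≤ (C * (1 / r + 0)) ^ m) : a ≤ 0 := by
  have h1 : Tendsto (fun r : ℝ => (C * (1 / r + 0)) ^ m) atTop (𝓝 ((C * (0 + 0)) ^ m)) := by
    have h0 : Tendsto (fun r : ℝ => 1 / r) atTop (𝓝 0) := by
      simpa only [one_div] using (tendsto_inv_atTop_zero (𝕜 := ℝ))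
    exact ((h0.add tendsto_const_nhds).const_mul C).pow m
  have h2 : ((C * (0 + 0) : ℝ)) ^ m = 0 := by
    rw [add_zero, mul_zero]
    exact zero_pow (by omega)
  rw [h2] at h1
  refine ge_of_tendsto h1 ?_
  filter_upwards [eventually_gt_atTop 0] with r hr
  exact h r hr

/-- the fibres off `D` contain no entire curves -/
theorem con_fib {P : Ideal (MvPolynomial (Fin (N + 1)) ℂ)} [P.IsPrime] (hP : Homog P) (hdim : ∃ z : Fin (k + 2) → FunField P, IsTranscendenceBasis ℂ z)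
    (hsmooth : Pool.Agent.AD.NC.IsSmooth P (k + 2)) {Λ : AddSubgroup (Cn (k + 1))} [DiscreteTopology Λ] (hspan : Submodule.span ℝ (Λ : Set (Cn (k + 1))) = ⊤)
    {u : PN N → Cn (k + 1) ⧸ Λ} (hu : IsHolomorphicTorusMap (projVar P) Λ u) {D : Set (Cn (k + 1))} (hDc : IsClosed D)
    (hS : HasSymmetricForms (projVar P) Λ u D) : ∀ y ∉ D, ∀ F : ℂ → EN N, Differentiable ℂ F → (∀ z, F z ∈ coneE P) → (∀ z, uV Λ u (F z) - y ∈ Λ) →
    ∀ z w, ∃ c : ℂ, F z = c • F w := by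
  intro y hy F hF hFX hFy
  have hcv : Cv (coneE P) Λ (uV Λ u) Set.univ F fun _ => y :=
    ⟨hF.differentiableOn, differentiableOn_const _, fun z _ => hFX z, fun z _ => hFy z⟩
  obtain ⟨m, J, r, S, W, hPD⟩ := pdata_of (D := D) hP hS
  obtain ⟨C, hps⟩ := ps_of_pdata (Pool.Agent.AD.isCone_coneE hP) (Pool.Agent.TGF.gu_charts hP hdim hsmooth) (Pool.Agent.TGF.gu_tor hP hu)
    (Pool.Agent.TGF.gu_lat Λ hspan) hDc hPD
  obtain ⟨C₁, hC₁, hahl⟩ := ahl hps
  obtain ⟨δ, hδ, hyδ⟩ := ConD_gd hDc hy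
  obtain ⟨c, hc, hge⟩ := hps.ge_fs δ hδ
  have h0 : ∀ z, fs (F z) (deriv F z) = 0 := by
    intro z
    have h1 : pf (pP S W) F z ≤ 0 := by
      refine ConD_zero (C := C₁) hps.m_pos fun r hr => ?_
      refine hahl F (fun _ => y) z r 0 hr le_rfl (hcv.mono (Set.subset_univ _)) fun w _ => ?_
      rw [deriv_const, norm_zero]
    have h2 := hge y hyδ (F z) (hFX z) (hFy z) (deriv F z) (hcv.tan isOpen_univ (Set.mem_univ z))
    have h3 : c * fs (F z) (deriv F z) ^ m ≤ 0 := h2.trans h1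
    have h4 : fs (F z) (deriv F z) ^ m ≤ 0 := by
      by_contra h5
      push Not at h5
      have := mul_pos hc h5
      linarith
    have h5 : 0 ≤ fs (F z) (deriv F z) := Pool.Agent.H36.BP.fs_nonneg _ _
    have h6 : fs (F z) (deriv F z) ^ m = 0 := le_antisymm h4 (pow_nonneg h5 m)
    have hm := hps.m_pos
    exact (pow_eq_zero_iff (by omega)).1 h6
  have hne : ∀ z, (F z).ofLp ≠ 0 := fun z => (hFX z).1
  have hne' : ∀ z, F z ≠ 0 := fun z h => hne z (by rw [h]; rfl)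
  have hwd : ∀ z, wd (F z) (deriv F z) = 0 := by
    intro z
    have h1 := h0 z
    unfold fs at h1
    rcases div_eq_zero_iff.1 h1 with h2 | h2
    · exact h2
    · exact absurd (pow_eq_zero_iff (by norm_num)|>.1 h2) (norm_ne_zero_iff.2 (hne' z))
  obtain ⟨f, hf⟩ : ∃ f : ℂ → PN N, f = fun z => Projectivization.mk ℂ (F z).ofLp (hne z) := ⟨_, rfl⟩
  have hloc : IsLocallyConstant f := by
    refine (IsLocallyConstant.iff_eventually_eq f).2 fun x => ?_
    have h1 := Pool.Agent.H36.BP.const_of_wedge (hF.analyticAt x) (hne' x) (Eventually.of_forall hwd)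
    filter_upwards [h1] with y hy
    obtain ⟨c, hc, hy⟩ := hy
    rw [hf]
    show Projectivization.mk ℂ (F y).ofLp (hne y) = Projectivization.mk ℂ (F x).ofLp (hne x)
    rw [Projectivization.mk_eq_mk_iff']
    refine ⟨c, ?_⟩
    rw [hy]
    rfl
  intro z w
  have h1 := hloc.apply_eq_of_preconnectedSpace z w
  rw [hf] at h1
  replace h1 : Projectivization.mk ℂ (F z).ofLp (hne z) = Projectivization.mk ℂ (F w).ofLp (hne w) := h1
  rw [Projectivization.mk_eq_mk_iff'] at h1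
  obtain ⟨b, hb⟩ := h1
  exact ⟨b, WithLp.ofLp_injective 2 hb.symm⟩

/-- the geometry of the cone -/
theorem geo_of' {P : Ideal (MvPolynomial (Fin (N + 1)) ℂ)} [P.IsPrime] (hP : Homog P) (hdim : ∃ z : Fin (k + 2) → FunField P, IsTranscendenceBasis ℂ z)
    (hsmooth : Pool.Agent.AD.NC.IsSmooth P (k + 2)) {Λ : AddSubgroup (Cn (k + 1))} [DiscreteTopology Λ] (hspan : Submodule.span ℝ (Λ : Set (Cn (k + 1))) = ⊤)
    {u : PN N → Cn (k + 1) ⧸ Λ} (hu : IsHolomorphicTorusMap (projVar P) Λ u) {D B : Set (Cn (k + 1))} (hD : IsAnalyticSubset D) (hDp : D ≠ Set.univ)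
    (hDi : ∀ y ∈ D, ∀ l ∈ Λ, y + l ∈ D) (hB : ∀ e : Cn (k + 1), e ≠ 0 → ∀ᵐ y : Cn (k + 1), ∀ z : ℂ, y + z • e ∉ B)
    (hsub : ∀ y ∉ D, ∀ x ∈ projVar P, u x = (y : Cn (k + 1) ⧸ Λ) → Submersion (projVar P) Λ u y x)
    (hcr : ∀ y ∈ D, y ∉ B → ∃ κ : Cn (k + 1) → Cn (k + 1), IsCoord D κ y ∧ ∀ x ∈ projVar P, u x = (y : Cn (k + 1) ⧸ Λ) → NormalCrossing (projVar P) Λ u κ x)
    (hS : HasSymmetricForms (projVar P) Λ u D) : Geo (coneE P) Λ (uV Λ u) D B where
  cone := Pool.Agent.AD.isCone_coneE hP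
  charts := Pool.Agent.TGF.gu_charts hP hdim hsmooth
  tor := Pool.Agent.TGF.gu_tor hP hu
  lat := Pool.Agent.TGF.gu_lat Λ hspan
  D_closed := hD.isClosed
  D_inv := hDi
  D_thin := hD.thin hDp
  B_lines := hB
  sub := by
    intro y hy x hx hxy
    obtain ⟨h0, h1⟩ := (mem_coneE hP).1 hx
    rw [sub_mem_iff, uV_eq Λ u h0] at hxy
    obtain ⟨σ, hσ, hov⟩ := hsub y hy _ h1 hxy
    obtain ⟨c, hc, hcx⟩ := Pool.Agent.TGF.exists_scale h0 hσ.point
    obtain ⟨τ, hτ⟩ := Pool.Agent.TGF.exists_germ hP hdim hsmooth (hσ.const_smul hc)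
    refine ⟨_, τ, hτ, hcx, ?_⟩
    filter_upwards [hov] with p hp
    exact Pool.Agent.TGF.gug_over (Pool.Agent.TGF.over_const_smul hp hc)
  fib := fun y hy F hF hFX hFy _ => con_fib hP hdim hsmooth hspan hu hD.isClosed hS y hy F hF hFX hFy
  nc := by
    intro y hy hyB
    obtain ⟨κ, hκ, hnc⟩ := hcr y hy hyB
    refine ⟨κ, ⟨hκ.holomorphic, hκ.point, ?_, hκ.mem_iff⟩, ?_⟩
    · rw [injective_iff_map_eq_zero]
      exact hκ.immersion
    · intro x hx hxy
      obtain ⟨h0, h1⟩ := (mem_coneE hP).1 hx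
      rw [sub_mem_iff, uV_eq Λ u h0] at hxy
      obtain ⟨σ, a, b, hσ, hab, hov⟩ := hnc _ h1 hxy
      obtain ⟨c, hc, hcx⟩ := Pool.Agent.TGF.exists_scale h0 hσ.point
      obtain ⟨τ, hτ⟩ := Pool.Agent.TGF.exists_germ hP hdim hsmooth (hσ.const_smul hc)
      refine ⟨_, τ, a, b, hτ, hcx, hab, ?_⟩
      filter_upwards [hov] with p hp
      exact Pool.Agent.TGF.gug_over (Pool.Agent.TGF.over_const_smul hp hc)

end Pool.Agent.G4
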