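import Pool.Agent.G3.F.FDefs
import Pool.Agent.G4.Z.CDefs
import Pool.Agent.TG.GuF
import Pool.Agent.H19T.FPic

/-!
# G4 F Ln: the entire curves over lines, in the projective space

As `G3/F/Ln`.  `S' =` the set of the maps `y ↦` the point of the projective space with the projection matrix `Φ y` (by choice; `H19T`: `prP`, `prP_injective`), `Φ ∈ S`.  `Csf.hol`, `Csf.cls`; entire lifts of `f` (`H17.exists_global_lift`).
-/

set_option autoImplicit false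

open Topology Filter Metric MvPolynomial

namespace Pool.Agent.G4

open Pool.Agent.H17 (PN VanishesAt HolomorphicInto puncturedDisc)
open Pool.Agent.H62.FC (Homog)
open Pool.Agent.H17LG.Variety (FunField IsLogGeneralType)
open Pool.Agent.H17EF (projVar coneE LE mem_coneE mk_mem_projVar)
open Pool.Agent.H36.BP (EN fs wd Sub Curve)
open Pool.Agent.H14.PP (IsCone CurveAt Tan)
open Pool.Agent.H62.EF (MN pr)
open Pool.Agent.AD (Vd Chart Charts uV IsHolomorphicTorusMap)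
open Pool.Agent.TG (TMap Lat Geo Gd VForm Fb)
open Pool.Agent.TGF (Cn Over IsDiscriminant)
open Pool.Agent.G3 (Cv)

variable {N k : ℕ} {P : Ideal (MvPolynomial (Fin (N + 1)) ℂ)} {Λ : AddSubgroup (Cn (k + 1))} {u : PN N → Cn (k + 1) ⧸ Λ} {D B : Set (Cn (k + 1))}

open Classical in
/-- the map to the projective space -/
private noncomputable def toPN (Φ : Vd (k + 1) → MN N) (y : Cn (k + 1)) : PN N :=
  if h : ∃ x : PN N, Pool.Agent.H17EF.prP x = Φ y then h.choose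
  else Projectivization.mk ℂ (Pi.single (0 : Fin (N + 1)) (1 : ℂ)) (by
    intro h0
    have h1 := congrFun h0 0
    rw [Pi.single_eq_same, Pi.zero_apply] at h1
    exact one_ne_zero h1)

private theorem toPN_eq {Φ : Vd (k + 1) → MN N} {y : Cn (k + 1)} {x : PN N} (h : Pool.Agent.H17EF.prP x = Φ y) : toPN Φ y = x := by
  have h1 : ∃ x : PN N, Pool.Agent.H17EF.prP x = Φ y := ⟨x, h⟩
  unfold toPN
  rw [dif_pos h1]
  exact Pool.Agent.H17EF.prP_injective (h1.choose_spec.trans h.symm)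

theorem lines_pn (hP : Homog P) {S : Set (Vd (k + 1) → MN N)} (hS : Csf (coneE P) Λ (uV Λ u) D S) :
    ∃ S : Set (Cn (k + 1) → PN N), S.Finite ∧ (∀ Φ ∈ S, ∀ y ∉ D, ∃ φ : Cn (k + 1) → Cn (N + 1), AnalyticAt ℂ φ y ∧
      ∀ᶠ z in 𝓝 y, Over (projVar P) Λ u z (φ z) ∧ ∃ h : φ z ≠ 0, Φ z = Projectivization.mk ℂ (φ z) h) ∧
    ∀ f : ℂ → PN N, HolomorphicInto f Set.univ → (∀ z, f z ∈ projVar P) → ∀ a b : Cn (k + 1), a ≠ 0 →
      (∀ z, u (f z) = ((z • a + b : Cn (k + 1)) : Cn (k + 1) ⧸ Λ)) → ∃ Φ ∈ S, ∀ z : ℂ, z • a + b ∉ D → f z = Φ (z • a + b) := by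
  refine ⟨toPN '' S, hS.fin.image _, ?_, ?_⟩
  · rintro _ ⟨Φ, hΦ, rfl⟩ y hy
    obtain ⟨φ, hφ, hφe⟩ := hS.hol Φ hΦ y hy
    refine ⟨fun z => (LE N).symm (φ z), AnalyticAt.comp (g := fun x : EN N => (LE N).symm x) (f := φ)
      (((LE N).symm : EN N →L[ℂ] (Fin (N + 1) → ℂ)).analyticAt _) hφ, ?_⟩
    filter_upwards [hφe] with z hz
    obtain ⟨h1, h2, h3⟩ := hz
    refine ⟨(Pool.Agent.TGF.over_iff hP).2 ⟨h1, h3⟩, h1.1, ?_⟩
    exact toPN_eq ((Pool.Agent.H17EF.mk_symm h1.1).trans h2.symm)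
  · intro f hf hfX a b ha hu
    obtain ⟨F, hF, hFf⟩ := Pool.Agent.H17EF.exists_lift hf
    have hFX : ∀ z, F z ∈ coneE P := by
      intro z
      obtain ⟨h, he⟩ := hFf z
      rw [mem_coneE hP]
      exact ⟨h, he ▸ hfX z⟩
    have hcv : Cv (coneE P) Λ (uV Λ u) Set.univ F (fun z => z • a + b) := by
      refine ⟨hF.differentiableOn, by fun_prop, fun z _ => hFX z, fun z _ => ?_⟩
      obtain ⟨h, he⟩ := hFf z
      rw [Pool.Agent.AD.sub_mem_iff, Pool.Agent.AD.uV_eq Λ u h, ← he]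
      exact hu z
    obtain ⟨Φ, hΦ, hΦe⟩ := hS.cls a ha b F hcv
    refine ⟨toPN Φ, ⟨Φ, hΦ, rfl⟩, fun z hz => ?_⟩
    obtain ⟨h, he⟩ := hFf z
    have h1 := hΦe z hz
    refine (toPN_eq ?_).symm
    rw [he, Pool.Agent.H17EF.mk_symm h, h1]

end Pool.Agent.G4
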