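import Pool.Agent.G3.F.ConE
import Pool.Agent.G3.F.ConP
import Pool.Agent.G3.F.Br
import Pool.Agent.G3.F.Pn
import Pool.Agent.G3.F.Pic
import Pool.Agent.G3.R.Root
import Pool.Agent.G3.X.Crs
import Pool.Agent.G3.PS.Main
import Pool.Agent.G4.F.ConD
import Pool.Agent.G4.F.QEx
import Pool.Agent.G4.F.Ln
import Pool.Agent.G4.Z.LctD

/-!
# G4 F Asm: from the finite set of sections to the final theorem

As the second half of `G3/F/Main`: the form `Q` (`exists_Q`), Theorem LCT (`lct`), the root estimate, the theorems of Brody, Picard, Kobayashi type, general type.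
-/

set_option autoImplicit false

open Topology Filter Metric MvPolynomial

namespace Pool.Agent.G4

open Pool.Agent.H17 (PN VanishesAt HolomorphicInto puncturedDisc)
open Pool.Agent.H62.FC (Homog)
open Pool.Agent.H17LG.Variety (FunField IsLogGeneralType)
open Pool.Agent.H17EF (projVar coneE LE mem_coneE mk_mem_projVar)
open Pool.Agent.H36.BP (EN fs wd Sub Curve)
open Pool.Agent.H14.PP (IsCone CurveAt Tan)
open Pool.Agent.H62.EF (MN pr)
open Pool.Agent.AD (Vd Chart Charts uV IsHolomorphicTorusMap)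
open Pool.Agent.TG (TMap Lat Geo Gd VForm Fb)
open Pool.Agent.TGF (Cn Over)
open Pool.Agent.G3 (Cv PS PData SForm pP root brody_cone picard_cone kob_cone brody_pn picard_pn kob_pn gglc_pn)
open Pool.Agent.G3.A (Ba Frm)
open Pool.Agent.G3F (TorusHyperbolic)

theorem asm {N k : ℕ} {P : Ideal (MvPolynomial (Fin (N + 1)) ℂ)} [P.IsPrime] (hP : Homog P)
    (hdim : ∃ z : Fin (k + 2) → FunField P, IsTranscendenceBasis ℂ z) (hsmooth : Pool.Agent.AD.NC.IsSmooth P (k + 2))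
    {Λ : AddSubgroup (Cn (k + 1))} {u : PN N → Cn (k + 1) ⧸ Λ} {D B : Set (Cn (k + 1))} (G : Geo (coneE P) Λ (uV Λ u) D B)
    (hs : Simp Λ) (hfew : ∀ a : Vd (k + 1), a ≠ 0 → Few (Ba D B a) a)
    (hR : ∃ (e : ℕ) (R : MvPolynomial (Fin (N + 1)) ℂ), R.IsHomogeneous e ∧ R ∉ P ∧
      ∀ x ∈ projVar P, (∃ y ∈ D, u x = (y : Cn (k + 1) ⧸ Λ)) → VanishesAt R x)
    {Γ : AddSubgroup (Vd (k + 1))} {J r : ℕ} {W : Fin r → Vd (k + 1) →L[ℂ] ℂ} {α : Fin J → VForm (coneE P) Λ (uV Λ u)} (hα : Frm (coneE P) Λ (uV Λ u) D Γ W α)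
    {p : EN N → EN N → ℝ} {m : ℕ} {C : ℝ} (hPS : PS (coneE P) Λ (uV Λ u) D p m C)
    {T : Set (Vd (k + 1) → MN N)} (hT : Csf (coneE P) Λ (uV Λ u) D T) (hldi : LDi D) :
    ∃ Q : MvPolynomial (Fin (N + 1)) ℂ, TorusHyperbolic P Λ u D Q := by
  obtain ⟨e, Q, c, hQh, hQP, hc, hQD, hQne, hQS, hQR⟩ := exists_Q hP hdim hsmooth G hT hR
  have hLCT := lct (Sit.mk G hs hldi hPS hQD hQne hT hQS (jbw_of_frm G hα) hfew (Pool.Agent.GX.crs G))
  obtain ⟨C₁, hC₁, hroot⟩ := root G.cone hPS hQD hLCT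
  have hcc : (c : ℂ) ≠ 0 := by exact_mod_cast hc.ne'
  have hbr := brody_pn (P := P) hP hQh fun F hF hFX h0 z w => by
    obtain ⟨z₀, hz₀⟩ := h0
    exact brody_cone G.cone G.tor G.lat G.D_closed hPS hQD hroot hF hFX ⟨z₀, mul_ne_zero hcc hz₀⟩ z w
  have hpic := picard_pn (P := P) hP hQh fun F hF h0 => by
    obtain ⟨z₀, hz₀, h1⟩ := h0
    exact picard_cone G hPS hQD hroot hLCT hF ⟨z₀, hz₀, mul_ne_zero hcc h1⟩
  have hggl : IsLogGeneralType (K := FunField P) (k := k + 2) (fun _ => False) → Pool.Agent.H22.TB.GGLC P {x | x ∈ projVar P ∧ VanishesAt Q x} := fun hgt =>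
    gglc_pn hdim hQh hQP hgt hpic hbr
  refine ⟨Q, ⟨⟨e, hQh⟩, hQP⟩, hQR, lines_pn hP hT, hbr, hpic, ?_, hggl,
    fun hgt M L P' _ R _ q hP' hR' hz' hw ⟨i⟩ hq hgt' => Pool.Agent.H23.GU.gglc_virtual hdim (hggl hgt) hP' hz' i hR' hw hgt' hq⟩
  intro x hx hxQ
  refine kob_pn hP hx (kob_cone G.cone G.tor G.lat G.D_closed G.D_inv hPS hQD hroot (x := LE N x.rep) ?_ ?_)
  · have h1 : (LE N).symm (LE N x.rep) = x.rep := (LE N).symm_apply_apply x.rep
    refine (mem_coneE hP).2 ?_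
    rw [h1]
    exact ⟨x.rep_nonzero, by rw [x.mk_rep]; exact hx⟩
  · exact mul_ne_zero hcc (by simpa [VanishesAt] using hxQ)

end Pool.Agent.G4
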