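import Pool.Agent.G4.F.BLn
import Pool.Agent.G3.A.TanF
import Pool.Agent.G3.E.Bs

/-!
# G4 F FewA: two-dimensional tori, finitely many points modulo `Λ`

`simp_one`: for `k = 1` the property `Simp` gives `G3.Simp` (no elliptic curves).
`few_of_fin`: a set which is finite modulo `Λ` has few hits with the lines: the `z` with `y + z a ∈ s + Λ` lie on a real line (`rank_one`), with distances at least `η`: at most `2 R / η + 2` of them in the disc of
radius `R`.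
`few_one`: so the bad points `Ba D B a` (finite modulo `Λ` by `tan_fin`).
`bl_closed`: `B + Λ` is closed.
-/

set_option autoImplicit false

open Topology Filter Metric

namespace Pool.Agent.G4

open Pool.Agent.AD (Vd)
open Pool.Agent.TG (Lat IsCoord)
open Pool.Agent.G3.A (Ba)

theorem simp_one {Λ : AddSubgroup (Vd (1 + 1))} (h : Simp Λ) : Pool.Agent.G3.Simp Λ := by
  intro a ha z₁ z₂ h1 h2 hli
  obtain ⟨W, hW⟩ : ∃ W : Submodule ℂ (Vd (1 + 1)), W = Submodule.span ℂ {a} := ⟨_, rfl⟩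
  have haW : a ∈ W := by
    rw [hW]
    exact Submodule.mem_span_singleton_self a
  have hbot : W ≠ ⊥ := by
    intro h0
    rw [h0, Submodule.mem_bot] at haW
    exact ha haW
  have htop : W ≠ ⊤ := by
    intro h0
    have h3 : Module.finrank ℂ W ≤ 1 := by
      rw [hW]
      exact finrank_span_singleton ha |>.le
    rw [h0, finrank_top] at h3
    simp [Vd] at h3
  refine h W hbot htop (le_antisymm ?_ fun v hv => ?_)
  · rw [Submodule.span_le]
    rintro v ⟨-, hv⟩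
    exact hv
  · have hv' : v ∈ W := hv
    rw [hW, Submodule.mem_span_singleton] at hv'
    obtain ⟨w, rfl⟩ := hv'
    have hsp : ⊤ ≤ Submodule.span ℝ (Set.range ![z₁, z₂]) := by
      rw [hli.span_eq_top_of_card_eq_finrank' (by simp [Complex.finrank_real_complex])]
    have hw : w ∈ Submodule.span ℝ (Set.range ![z₁, z₂]) := hsp Submodule.mem_top
    rw [Matrix.range_cons, Matrix.range_cons, Matrix.range_empty, Set.union_empty, Set.singleton_union, Submodule.mem_span_pair] at hw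
    obtain ⟨s, t, rfl⟩ := hw
    rw [add_smul, smul_assoc, smul_assoc]
    refine Submodule.add_mem _ (Submodule.smul_mem _ s (Submodule.subset_span ⟨h1, W.smul_mem z₁ haW⟩)) (Submodule.smul_mem _ t (Submodule.subset_span ⟨h2, W.smul_mem z₂ haW⟩))

private theorem rank_one {Λ : AddSubgroup (Vd (1 + 1))} (hs : Pool.Agent.G3.Simp Λ) {a : Vd (1 + 1)} (ha : a ≠ 0) :
    ∃ ω : ℂ, ‖ω‖ = 1 ∧ ∀ z : ℂ, z • a ∈ Λ → ((starRingEnd ℂ) ω * z).im = 0 := by
  by_cases h : ∃ z₁ : ℂ, z₁ ≠ 0 ∧ z₁ • a ∈ Λ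
  · obtain ⟨z₁, h0, h1⟩ := h
    have hn : ‖z₁‖ ≠ 0 := norm_ne_zero_iff.2 h0
    refine ⟨z₁ / (‖z₁‖ : ℂ), ?_, fun z hz => ?_⟩
    · rw [norm_div, Complex.norm_real, norm_norm, div_self hn]
    · have hli := hs a ha z₁ z h1 hz
      rw [LinearIndependent.pair_iff] at hli
      push Not at hli
      obtain ⟨s, t, hst, hne⟩ := hli
      have ht : t ≠ 0 := by
        intro ht
        rw [ht, zero_smul, add_zero, Complex.real_smul, mul_eq_zero] at hst
        rcases hst with hst | hst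
        · exact hne (by exact_mod_cast hst) ht
        · exact h0 hst
      have hz' : z = ((-s / t : ℝ) : ℂ) * z₁ := by
        rw [Complex.real_smul, Complex.real_smul] at hst
        have htc : (t : ℂ) ≠ 0 := by exact_mod_cast ht
        push_cast
        field_simp
        linear_combination hst
      rw [hz', map_div₀, Complex.conj_ofReal]
      have h2 : (starRingEnd ℂ) z₁ / (‖z₁‖ : ℂ) * (((-s / t : ℝ) : ℂ) * z₁) = ((‖z₁‖ * (-s / t) : ℝ) : ℂ) := by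
        have h3 : (starRingEnd ℂ) z₁ * z₁ = (‖z₁‖ : ℂ) ^ 2 := by
          rw [mul_comm, Complex.mul_conj, Complex.normSq_eq_norm_sq]; push_cast; ring
        have h4 : (‖z₁‖ : ℂ) ≠ 0 := by exact_mod_cast hn
        rw [Complex.ofReal_mul]
        generalize (((-s / t : ℝ) : ℂ)) = r
        field_simp
        linear_combination r * h3
      rw [h2, Complex.ofReal_im]
  · push Not at h
    refine ⟨1, norm_one, fun z hz => ?_⟩
    by_cases h0 : z = 0
    · simp [h0]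
    · exact absurd hz (h z h0)

/-- separated points on a real line -/
private theorem card_line {ω : ℂ} (hω : ‖ω‖ = 1) {η R : ℝ} (hη : 0 < η) (hR : 0 ≤ R) (S : Finset ℂ) (hS : ∀ z ∈ S, ‖z‖ ≤ R)
    (him : ∀ z ∈ S, ∀ z' ∈ S, ((starRingEnd ℂ) ω * (z - z')).im = 0) (hsep : ∀ z ∈ S, ∀ z' ∈ S, ‖z - z'‖ < η → z = z') : (S.card : ℝ) ≤ 2 * R / η + 2 := by
  obtain ⟨g, hg⟩ : ∃ g : ℂ → ℤ, g = fun z => ⌊((starRingEnd ℂ) ω * z).re / η⌋ := ⟨_, rfl⟩
  have hcω : ‖(starRingEnd ℂ) ω‖ = 1 := by rw [RCLike.norm_conj, hω]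
  have hmaps : ∀ z ∈ S, g z ∈ Finset.Icc ⌊-R / η⌋ ⌊R / η⌋ := by
    intro z hz
    have h1 : |((starRingEnd ℂ) ω * z).re| ≤ R := by
      refine (Complex.abs_re_le_norm _).trans ?_
      rw [norm_mul, hcω, one_mul]
      exact hS z hz
    rw [Finset.mem_Icc, hg]
    rw [abs_le] at h1
    exact ⟨Int.floor_le_floor (div_le_div_of_nonneg_right h1.1 hη.le), Int.floor_le_floor (div_le_div_of_nonneg_right h1.2 hη.le)⟩
  have hinj : Set.InjOn g (S : Set ℂ) := by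
    intro z hz z' hz' he
    refine hsep z hz z' hz' ?_
    rw [hg] at he
    have h1 := Int.abs_sub_lt_one_of_floor_eq_floor he
    rw [← sub_div, abs_div, abs_of_pos hη, div_lt_one hη, ← Complex.sub_re, ← mul_sub] at h1
    have h2 : ‖z - z'‖ = ‖(starRingEnd ℂ) ω * (z - z')‖ := by rw [norm_mul, hcω, one_mul]
    have h3 : (starRingEnd ℂ) ω * (z - z') = ((((starRingEnd ℂ) ω * (z - z')).re : ℝ) : ℂ) := by
      apply Complex.ext
      · simp
      · rw [him z hz z' hz', Complex.ofReal_im]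
    rw [h2, h3, Complex.norm_real]
    exact h1
  have h1 := Finset.card_le_card_of_injOn g hmaps hinj
  rw [Int.card_Icc] at h1
  have h2 : (S.card : ℝ) ≤ ((⌊R / η⌋ + 1 - ⌊-R / η⌋).toNat : ℝ) := by exact_mod_cast h1
  have h3 : (0 : ℤ) ≤ ⌊R / η⌋ + 1 - ⌊-R / η⌋ := by
    have : ⌊-R / η⌋ ≤ ⌊R / η⌋ := Int.floor_le_floor (div_le_div_of_nonneg_right (by linarith) hη.le)
    omega
  have h4 : (((⌊R / η⌋ + 1 - ⌊-R / η⌋).toNat : ℕ) : ℝ) = ((⌊R / η⌋ + 1 - ⌊-R / η⌋ : ℤ) : ℝ) := by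
    exact_mod_cast congrArg (fun n : ℤ => (n : ℝ)) (Int.toNat_of_nonneg h3)
  rw [h4] at h2
  push_cast at h2
  have h5 := Int.floor_le (R / η)
  have h6 := (Int.lt_floor_add_one (-R / η)).le
  have h7 : 2 * R / η = R / η - -R / η := by ring
  rw [h7]
  linarith

/-- a set which is finite modulo `Λ` has few hits -/
theorem few_of_fin {Λ : AddSubgroup (Vd (1 + 1))} (hΛ : Lat Λ) (hs : Pool.Agent.G3.Simp Λ) {Bad : Set (Vd (1 + 1))}
    (hB : ∃ S : Set (Vd (1 + 1)), S.Finite ∧ ∀ b ∈ Bad, ∃ s ∈ S, b - s ∈ Λ) {a : Vd (1 + 1)} (ha : a ≠ 0) : Few Bad a := by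
  classical
  obtain ⟨T, hT, hBT⟩ := hB
  obtain ⟨δ, hδ, hdis⟩ := hΛ.disc
  obtain ⟨ω, hω, hωa⟩ := rank_one hs ha
  have han : 0 < ‖a‖ := norm_pos_iff.2 ha
  obtain ⟨η, hη, hηd⟩ : ∃ η : ℝ, 0 < η ∧ η = δ / ‖a‖ := ⟨δ / ‖a‖, by positivity, rfl⟩
  obtain ⟨n, hn⟩ : ∃ n : ℝ, n = hT.toFinset.card := ⟨_, rfl⟩
  have hn0 : 0 ≤ n := by
    rw [hn]
    positivity
  intro ε hε
  refine ⟨2 * n + (n / η) ^ 2 / ε, fun y R hR S hS => ?_⟩
  have h1 : ∀ s ∈ hT.toFinset, ((S.filter fun z => y + z • a - s ∈ Λ).card : ℝ) ≤ 2 * R / η + 2 := by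
    intro s _
    refine card_line hω hη hR _ (fun z hz => (hS z (Finset.mem_filter.1 hz).1).1) (fun z hz z' hz' => ?_) (fun z hz z' hz' hlt => ?_)
    · have h2 := Λ.sub_mem (Finset.mem_filter.1 hz).2 (Finset.mem_filter.1 hz').2
      have h3 : y + z • a - s - (y + z' • a - s) = (z - z') • a := by
        rw [sub_smul]
        abel
      rw [h3] at h2
      exact hωa _ h2
    · have h2 := Λ.sub_mem (Finset.mem_filter.1 hz).2 (Finset.mem_filter.1 hz').2
      have h3 : y + z • a - s - (y + z' • a - s) = (z - z') • a := by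
        rw [sub_smul]
        abel
      rw [h3] at h2
      have h4 := hdis _ h2 (by
        rw [norm_smul]
        rw [hηd, lt_div_iff₀ han] at hlt
        exact hlt)
      rcases smul_eq_zero.1 h4 with h5 | h5
      · exact sub_eq_zero.1 h5
      · exact absurd h5 ha
  have h2 : S ⊆ hT.toFinset.biUnion fun s => S.filter fun z => y + z • a - s ∈ Λ := by
    intro z hz
    obtain ⟨s, hs, hsl⟩ := hBT _ (hS z hz).2
    rw [Finset.mem_biUnion]
    exact ⟨s, hT.mem_toFinset.2 hs, Finset.mem_filter.2 ⟨hz, hsl⟩⟩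
  have h3 : (S.card : ℝ) ≤ n * (2 * R / η + 2) := by
    have h4 : (S.card : ℝ) ≤ ∑ s ∈ hT.toFinset, ((S.filter fun z => y + z • a - s ∈ Λ).card : ℝ) := by
      exact_mod_cast (Finset.card_le_card h2).trans Finset.card_biUnion_le
    refine h4.trans ((Finset.sum_le_sum h1).trans ?_)
    rw [Finset.sum_const, nsmul_eq_mul, hn]
  have h4 : n * (2 * R / η) ≤ ε * R ^ 2 + (n / η) ^ 2 / ε := by
    have h5 : 0 ≤ (ε * R - n / η) ^ 2 / ε := by positivity
    have h6 : (ε * R - n / η) ^ 2 / ε = ε * R ^ 2 - n * (2 * R / η) + (n / η) ^ 2 / ε := by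
      field_simp
      ring
    linarith
  linarith [mul_add n (2 * R / η) 2]

/-- `B + Λ` is closed -/
theorem bl_closed {k : ℕ} {Λ : AddSubgroup (Vd (k + 1))} [DiscreteTopology Λ] {B : Set (Vd (k + 1))}
    (hB : ∃ S : Set (Vd (k + 1)), S.Finite ∧ ∀ b ∈ B, ∃ s ∈ S, b - s ∈ Λ) : IsClosed (Pool.Agent.G3.E.BL B Λ) := by
  obtain ⟨S, hS, hBS⟩ := hB
  have hc : IsClosed (Λ : Set (Vd (k + 1))) := AddSubgroup.isClosed_of_discrete
  have h1 : Pool.Agent.G3.E.BL B Λ = ⋃ s ∈ {s | s ∈ S ∧ ∃ b ∈ B, b - s ∈ Λ}, (fun y => y - s) ⁻¹' (Λ : Set (Vd (k + 1))) := by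
    ext y
    constructor
    · rintro ⟨b, hb, hy⟩
      obtain ⟨s, hs, hbs⟩ := hBS b hb
      refine Set.mem_biUnion (x := s) ⟨hs, b, hb, hbs⟩ ?_
      show y - s ∈ Λ
      have h2 := Λ.add_mem hy hbs
      rwa [sub_add_sub_cancel] at h2
    · intro hy
      obtain ⟨s, ⟨hs, b, hb, hbs⟩, hy⟩ := Set.mem_iUnion₂.1 hy
      refine ⟨b, hb, ?_⟩
      have h2 := Λ.sub_mem (show y - s ∈ Λ from hy) hbs
      rwa [sub_sub_sub_cancel_right] at h2
  rw [h1]
  exact (hS.subset fun s hs => hs.1).isClosed_biUnion fun s _ => hc.preimage (continuous_id.sub continuous_const)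

theorem few_one {Λ : AddSubgroup (Vd (1 + 1))} {D B : Set (Vd (1 + 1))} (hΛ : Lat Λ) (hs : Simp Λ) (hDc : IsClosed D) (hinv : ∀ y ∈ D, ∀ l ∈ Λ, y + l ∈ D)
    (hD : ∀ y, ∃ (m : ℕ) (h : Vd (1 + 1) → Fin m → ℂ), AnalyticAt ℂ h y ∧ ∀ᶠ z in 𝓝 y, (z ∈ D ↔ h z = 0)) (hne : D ≠ Set.univ)
    (hB : ∃ S : Set (Vd (1 + 1)), S.Finite ∧ ∀ b ∈ B, ∃ s ∈ S, b - s ∈ Λ) (hco : ∀ y ∈ D, y ∉ B → ∃ κ : Vd (1 + 1) → Vd (1 + 1), IsCoord D κ y) {a : Vd (1 + 1)} (ha : a ≠ 0) :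
    Few (Ba D B a) a :=
  few_of_fin hΛ (simp_one hs) (Pool.Agent.G3.A.tan_fin hΛ (simp_one hs) hDc hinv hD hne hB hco ha) ha

end Pool.Agent.G4
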