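import Pool.Agent.G4.F.Asm
import Pool.Agent.G4.F.ConJ
import Pool.Agent.G4.F.FewA
import Pool.Agent.G4.RE.Sml
import Pool.Agent.G4.E.Main

/-!
# G4 F Main: the final theorem

`X` is a smooth projective variety of dimension `k + 2`, `u` a holomorphic map to a simple complex torus `ℂ^(k+1) / Λ`.  The set `B` is replaced by `B ∩ D` (for `k = 1`, `B` finite modulo `Λ`: by `(B + Λ) ∩ D`),
closed and invariant, with few bad points (`exists_B`; by theta functions, `RE/Sml`).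
-/

set_option autoImplicit false

open Topology Filter Metric MvPolynomial

namespace Pool.Agent.G4

open Pool.Agent.H17 (PN VanishesAt HolomorphicInto puncturedDisc)
open Pool.Agent.H62.FC (Homog)
open Pool.Agent.H17LG.Variety (FunField IsLogGeneralType)
open Pool.Agent.H17EF (projVar coneE LE mem_coneE mk_mem_projVar)
open Pool.Agent.H36.BP (EN fs wd Sub Curve)
open Pool.Agent.H14.PP (IsCone CurveAt Tan)
open Pool.Agent.H62.EF (MN pr)
open Pool.Agent.AD (Vd Chart Charts uV IsHolomorphicTorusMap)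
open Pool.Agent.TG (TMap Lat Geo Gd VForm Fb TransAt)
open Pool.Agent.TGF (Cn Over IsAnalyticSubset)
open Pool.Agent.G3 (frm_of pdata_of ps_of_pdata)
open Pool.Agent.G3.A (Ba Frm)
open Pool.Agent.G3.E (BL sub_bl bl_inv bl_fin)
open Pool.Agent.G3F (HasTopForms HasSymmetricForms TorusHyperbolic)
open Pool.Agent.G4F (IsSimple IsSmall IsSingularLocus HasJetForms)

variable {N k : ℕ}

theorem Few.mono {B B' : Set (Vd (k + 1))} {a : Vd (k + 1)} (h : Few B' a) (hle : B ⊆ B') : Few B a := by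
  intro ε hε
  obtain ⟨C, hC⟩ := h ε hε
  exact ⟨C, fun y R hR S hS => hC y R hR S fun z hz => ⟨(hS z hz).1, hle (hS z hz).2⟩⟩

theorem ba_inter {D B : Set (Vd (k + 1))} {a : Vd (k + 1)} : Ba D (B ∩ D) a ⊆ Ba D B a := by
  rintro q ⟨h1, h2⟩
  exact ⟨h1, h2.imp (fun h => h.1) id⟩

/-- the set `B` can be taken closed and invariant, in `D`, with few bad points -/
theorem exists_B (Λ : AddSubgroup (Cn (k + 1))) [DiscreteTopology Λ] (hΛ : Lat Λ) (hs : Simp Λ) {D B : Set (Cn (k + 1))} (hD : IsAnalyticSubset D) (hDu : D ≠ Set.univ)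
    (hDi : ∀ y ∈ D, ∀ l ∈ Λ, y + l ∈ D) (hco : ∀ y ∈ D, y ∉ B → ∃ κ : Vd (k + 1) → Vd (k + 1), Pool.Agent.TG.IsCoord D κ y)
    {X : Set (EN N)} {v : EN N → Vd (k + 1)} {Γ : AddSubgroup (Vd (k + 1))} {J r : ℕ} {W : Fin r → Vd (k + 1) →L[ℂ] ℂ} {α : Fin J → VForm X Λ v} (hF : Frm X Λ v D Γ W α)
    (hx : ∃ y ∉ D, ∃ x ∈ X, v x - y ∈ Λ) (hB : IsSmall Λ D B) :
    ∃ B' : Set (Cn (k + 1)), IsClosed B' ∧ (∀ b ∈ B', ∀ l ∈ Λ, b + l ∈ B') ∧ B' ⊆ D ∧ (∀ y ∈ D, y ∉ B' → y ∉ B) ∧ ∀ a : Vd (k + 1), a ≠ 0 → Few (Ba D B' a) a := by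
  rcases hB with ⟨rfl, hB⟩ | ⟨h2, hE⟩
  · have hfew : ∀ a : Vd (1 + 1), a ≠ 0 → Few (Ba D (BL B Λ) a) a := fun a ha =>
      few_one hΛ hs hD.isClosed hDi hD hDu (bl_fin hB) (fun y hy hyB => hco y hy fun h => hyB (sub_bl h)) ha
    exact ⟨BL B Λ ∩ D, (bl_closed hB).inter hD.isClosed, fun b hb l hl => ⟨bl_inv b hb.1 l hl, hDi b hb.2 l hl⟩, Set.inter_subset_right, fun y hy hyB h => hyB ⟨sub_bl h, hy⟩,
      fun a ha => (hfew a ha).mono ba_inter⟩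
  · obtain ⟨y₀, hy₀⟩ := (Set.ne_univ_iff_exists_notMem D).1 hDu
    have hL : LDi D := ldi_of hΛ hs (fun y _ => hD y) hDi hy₀
    exact ⟨B ∩ D, RE.Lq.closed hD.isClosed hE, fun b hb l hl => ⟨h2 b hb.1 l hl, hDi b hb.2 l hl⟩, Set.inter_subset_right, fun y hy hyB h => hyB ⟨h, hy⟩,
      fun a ha => (RE.few_lq hΛ hs hF hx hD.isClosed hDi h2 hL hE hco ha).mono ba_inter⟩

theorem main {N k : ℕ} (P : Ideal (MvPolynomial (Fin (N + 1)) ℂ)) [P.IsPrime] (hP : Homog P)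
    (hdim : ∃ z : Fin (k + 2) → FunField P, IsTranscendenceBasis ℂ z) (hsmooth : Pool.Agent.AD.NC.IsSmooth P (k + 2))
    (Λ : AddSubgroup (Cn (k + 1))) [DiscreteTopology Λ] (hspan : Submodule.span ℝ (Λ : Set (Cn (k + 1))) = ⊤) (hsimple : IsSimple Λ)
    (u : PN N → Cn (k + 1) ⧸ Λ) (hu : IsHolomorphicTorusMap (projVar P) Λ u) (D B : Set (Cn (k + 1))) (hD : IsSingularLocus (projVar P) Λ u D B)
    (hR : ∃ (e : ℕ) (R : MvPolynomial (Fin (N + 1)) ℂ), R.IsHomogeneous e ∧ R ∉ P ∧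
      ∀ x ∈ projVar P, (∃ y ∈ D, u x = (y : Cn (k + 1) ⧸ Λ)) → VanishesAt R x)
    (hE : HasTopForms (projVar P) Λ u D) (hS : HasSymmetricForms (projVar P) Λ u D) (hJ : HasJetForms (projVar P) Λ u D) :
    ∃ Q : MvPolynomial (Fin (N + 1)) ℂ, TorusHyperbolic P Λ u D Q := by
  have hs : Simp Λ := simp_of_span hsimple
  have hΛ : Lat Λ := Pool.Agent.TGF.gu_lat Λ hspan
  obtain ⟨Γ, r, J, W, α, hα⟩ := frm_of (D := D) hP hΛ hE
  obtain ⟨B', hBc, hBi, hBD, hBB, hfew⟩ := exists_B Λ hΛ hs hD.analytic hD.proper hD.invariant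
    (fun y hy hyB => by
      obtain ⟨κ, hκ, -⟩ := hD.crossing y hy hyB
      exact ⟨κ, hκ.holomorphic, hκ.point, (injective_iff_map_eq_zero _).2 hκ.immersion, hκ.mem_iff⟩) hα (H.exists_over hP hdim hR) hD.small
  have G : Geo (coneE P) Λ (uV Λ u) D B' := geo_of' hP hdim hsmooth hspan hu hD.analytic hD.proper hD.invariant
    (fun a ha => ae_lines hΛ hBc hBi ((hfew a ha).mono fun q hq => ⟨hBD hq, Or.inl hq⟩)) hD.submersion (fun y hy hyB => hD.crossing y hy (hBB y hy hyB)) hS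
  obtain ⟨m, J', r', S, W', hPD⟩ := pdata_of (D := D) hP hS
  obtain ⟨C, hPS⟩ := ps_of_pdata G.cone G.charts G.tor G.lat G.D_closed hPD
  obtain ⟨⟨T, hT⟩, hldi⟩ := E.end_main G hD.analytic hD.proper hBc hBi hs hfew hPS hα (jform_of hP hΛ hs hD.analytic hD.proper hD.invariant hJ)
  exact asm hP hdim hsmooth G hs hfew hR hα hPS hT hldi

end Pool.Agent.G4
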